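import Mathlib
import Pool.Agent.Helper669.Forcing

set_option autoImplicit false

/-!
# The statements about the extension
-/

namespace Pool.Agent.T2H97.EDM

open Cardinal Pool.Agent.Helper669.Forcing

/-- In the extension, the ground model cardinal `ν` is still a cardinal: no function from a
ground model set of smaller ground model cardinality `μ` to `ν` is onto. -/
def StaysCardinal (P : Type) [Preorder P] (ν : Cardinal.{0}) : Set P :=
  fall fun μ : Cardinal.{0} => fall fun _ : μ < ν =>
    fnot (fex fun R : μ.out → ν.out → Set P => fand (IsFun R) (IsOnto R))

/-- In the extension, the linear order `K` has uncountable cofinality: no function from `ℕ` to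
`K` has cofinal range. -/
def UncountableCofinality (P : Type) [Preorder P] (K : Type) [LinearOrder K] : Set P :=
  fnot (fex fun f : ℕ → K → Set P =>
    fand (IsFun f) (fall fun x : K => fex fun n : ℕ => fex fun y : K =>
      fand (fground (x ≤ y)) (meets (f n y))))

/-- `c` names a set of pairs of elements of `K` (the pairs `x < y` of colour `1`). Every subset
of `K` of the same cardinality as `K` contains a pair of colour `1`, that is, there is no
homogeneous set of colour `0` of full cardinality. -/
def NoLargeZero {P : Type} [Preorder P] {K : Type} [LinearOrder K] (c : K → K → Set P) : Set P :=
  fall fun H : K → Set P => fimp (FullSize fun x => meets (H x))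
    (fex fun x : K => fex fun y : K =>
      fand (fground (x < y)) (fand (meets (H x)) (fand (meets (H y)) (meets (c x y)))))

/-- `f` names a strictly increasing sequence in `K`, all its terms are below `γ`, and all pairs
of elements of the set formed by the terms of the sequence and `γ` have colour `1`: it is a
homogeneous set of colour `1` and of order type `ω + 1`. -/
def HomOne {P : Type} [Preorder P] {K : Type} [LinearOrder K] (c : K → K → Set P)
    (f : ℕ → K → Set P) (γ : K) : Set P :=
  fand (IsFun f) (fand
    (fall fun m : ℕ => fall fun n : ℕ => fall fun x : K => fall fun y : K =>
      fimp (fand (fground (m < n)) (fand (meets (f m x)) (meets (f n y))))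
        (fand (fground (x < y)) (meets (c x y))))
    (fall fun n : ℕ => fall fun x : K =>
      fimp (meets (f n x)) (fand (fground (x < γ)) (meets (c x γ)))))

/-- There is no homogeneous set of colour `1` and of order type `ω + 1`. -/
def NoOmegaSuccOne {P : Type} [Preorder P] {K : Type} [LinearOrder K] (c : K → K → Set P) :
    Set P :=
  fall fun f : ℕ → K → Set P => fall fun γ : K => fnot (HomOne c f γ)

/-- In the extension, `K ↛ (|K|, ω + 1)²`: there is a colouring of the pairs of elements of `K`
with two colours without a homogeneous set of colour `0` of cardinality `|K|` and without a
homogeneous set of colour `1` and of order type `ω + 1`. -/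
def NotArrow (P : Type) [Preorder P] (K : Type) [LinearOrder K] : Set P :=
  fex fun c : K → K → Set P => fand (NoLargeZero c) (NoOmegaSuccOne c)

end Pool.Agent.T2H97.EDM
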