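import Mathlib
import Pool.Agent.Helper669.KDelta

set_option autoImplicit false

/-!
# Tasks

A task is a strictly increasing sequence `a n` in `ω₁` with countable sets `e n` of points (only
the points of `e n` between `a n` and `a (n+1)` matter). A function `g : ω₁ → ω₁` satisfies the
task if for some `n` all values of `g` at these points of `e n` are smaller than `g (a n)`. Any
countably many tasks are satisfied by one function.
-/

namespace Pool.Agent.T2H97.EDM

open Cardinal Set

/-- The ordinal `ω₁` as a well-ordered type. -/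
abbrev Om : Type := (ℵ₁ : Cardinal.{0}).ord.ToType

/-- A task. -/
abbrev Task : Type := (ℕ → Om) × (ℕ → ℕ → Om)

/-- `g` satisfies the task `t`. -/
def Sat (t : Task) (g : Om → Om) : Prop :=
  ∃ n, ∀ m, t.1 n < t.2 n m → t.2 n m < t.1 (n + 1) → g (t.2 n m) < g (t.1 n)

theorem mk_Om : #Om = ℵ₁ := mk_ord_toType _

instance : Nonempty Om := by
  rw [← mk_ne_zero_iff, mk_Om]
  exact (aleph_pos 1).ne'

theorem exists_bound {ι : Type} [Countable ι] (f : ι → Om) : ∃ z, ∀ n, f n < z := by
  by_contra hcon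
  push Not at hcon
  have hcof : IsCofinal (range f) := fun z => by
    obtain ⟨n, hn⟩ := hcon z
    exact ⟨f n, ⟨n, rfl⟩, hn⟩
  have h1 := Order.cof_le hcof
  rw [Ordinal.cof_toType, isRegular_aleph_one.cof_ord] at h1
  have h2 : #(range f) ≤ ℵ₀ := mk_range_le.trans (mk_le_aleph0_iff.2 inferInstance)
  exact absurd (h1.trans h2) (not_le.2 aleph0_lt_aleph_one)

theorem exists_bound_countable (S : Set Om) (hS : S.Countable) : ∃ z, ∀ x ∈ S, x < z := by
  have : Countable S := hS
  obtain ⟨z, hz⟩ := exists_bound (fun x : S => x.1)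
  exact ⟨z, fun x hx => hz ⟨x, hx⟩⟩

/-- any countable set of tasks is satisfied by one function -/
theorem exists_sat (S : Set Task) (hS : S.Countable) (hmono : ∀ t ∈ S, StrictMono t.1) :
    ∃ g : Om → Om, ∀ t ∈ S, Sat t g := by
  rcases S.eq_empty_or_nonempty with rfl | hne
  · exact ⟨id, by simp⟩
  obtain ⟨t, rfl⟩ := hS.exists_eq_range hne
  have hm : ∀ k, StrictMono (t k).1 := fun k => hmono _ ⟨k, rfl⟩
  obtain ⟨f, hf⟩ := Pool.Agent.Helper669.KDelta.rec_choice (ι := ℕ) (β := ℕ) (r := (· < ·))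
    wellFounded_lt
    (fun i f b => ∀ l < i,
      ¬ ((t i).1 b < (t l).1 (f l) ∧ (t l).1 (f l) < (t i).1 (b + 1)) ∧
      ((t i).1 b < (t l).1 (f l + 1) → ∀ m, (t i).1 m < (t l).1 (f l + 1)))
    (by
      intro i f g b hfg h l hl
      rw [← hfg l hl]
      exact h l hl)
    (by
      intro i f _
      have hev : ∀ l : ℕ, ∀ᶠ b in Filter.atTop,
          ¬ ((t i).1 b < (t l).1 (f l) ∧ (t l).1 (f l) < (t i).1 (b + 1)) ∧
          ((t i).1 b < (t l).1 (f l + 1) → ∀ m, (t i).1 m < (t l).1 (f l + 1)) := by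
        intro l
        have h1 : ∀ᶠ b in Filter.atTop,
            ¬ ((t i).1 b < (t l).1 (f l) ∧ (t l).1 (f l) < (t i).1 (b + 1)) := by
          by_cases hc : ∃ b, (t l).1 (f l) < (t i).1 b
          · obtain ⟨b, hb⟩ := hc
            filter_upwards [Filter.eventually_ge_atTop b] with b' hb' hh
            exact absurd (hb.trans_le ((hm i).monotone hb')) (not_lt.2 hh.1.le)
          · push Not at hc
            exact Filter.Eventually.of_forall fun b hh => absurd hh.2 (not_lt.2 (hc _))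
        have h2 : ∀ᶠ b in Filter.atTop,
            ((t i).1 b < (t l).1 (f l + 1) → ∀ m, (t i).1 m < (t l).1 (f l + 1)) := by
          by_cases hc : ∃ b, (t l).1 (f l + 1) ≤ (t i).1 b
          · obtain ⟨b, hb⟩ := hc
            filter_upwards [Filter.eventually_ge_atTop b] with b' hb' hh
            exact absurd (hb.trans ((hm i).monotone hb')) (not_le.2 hh)
          · push Not at hc
            exact Filter.Eventually.of_forall fun b _ => hc
        exact h1.and h2
      have := (Set.finite_Iio i).eventually_all (l := Filter.atTop) |>.2 (fun l _ => hev l)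
      exact this.exists)
  have hex : ∀ x : Om, ∃ z : Om, ∀ k, (t k).1 (f k) = x → ∀ m, (t k).1 m < z := by
    intro x
    obtain ⟨z, hz⟩ := exists_bound (fun p : ℕ × ℕ => (t p.1).1 p.2)
    exact ⟨z, fun k _ m => hz (k, m)⟩
  let g : Om → Om := fun x => wellFounded_lt.min
    {z : Om | ∀ k, (t k).1 (f k) = x → ∀ m, (t k).1 m < z} (hex x)
  have hg1 : ∀ x, ∀ k, (t k).1 (f k) = x → ∀ m, (t k).1 m < g x := fun x =>
    wellFounded_lt.min_mem {z : Om | ∀ k, (t k).1 (f k) = x → ∀ m, (t k).1 m < z} (hex x)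
  have hg2 : ∀ x z, (∀ k, (t k).1 (f k) = x → ∀ m, (t k).1 m < z) → g x ≤ z := fun x z hz =>
    not_lt.1 (wellFounded_lt.not_lt_min
      {z : Om | ∀ k, (t k).1 (f k) = x → ∀ m, (t k).1 m < z} hz)
  refine ⟨g, ?_⟩
  rintro _ ⟨k, rfl⟩
  refine ⟨f k, fun m h1 h2 => ?_⟩
  refine lt_of_le_of_lt (hg2 _ ((t k).1 (f k + 1)) ?_) (hg1 _ k rfl (f k + 1))
  intro l hl m'
  rw [← hl] at h1 h2
  rcases lt_trichotomy l k with hlk | hlk | hlk
  · exact absurd ⟨h1, h2⟩ (hf k l hlk).1
  · rw [hlk] at h1
    exact absurd h1 (lt_irrefl _)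
  · exact (hf l k hlk).2 h2 m'

end Pool.Agent.T2H97.EDM
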