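import Mathlib
import Pool.Agent.T2H97.EDM.Task

set_option autoImplicit false

/-!
# The conditions
-/

namespace Pool.Agent.T2H97.EDM

open Cardinal Set

theorem Sat.congr {t : Task} {g g' : Om → Om} {δ : Om} (hδ : ∀ n, t.1 n < δ)
    (hg : ∀ y < δ, g' y = g y) (h : Sat t g) : Sat t g' := by
  obtain ⟨n, hn⟩ := h
  refine ⟨n, fun m h1 h2 => ?_⟩
  rw [hg _ (h2.trans (hδ _)), hg _ (hδ _)]
  exact hn m h1 h2

/-- A condition. Here `b : K → ω₁` is the division of the underlying set `K` into `ω₁` blocks,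
`δ` is the height of the condition, `h j : j → ω₁` for `j < δ` are functions, `T` is a countable
set of tasks, and for `α` in the countable set `D` the set `Y α` is the trace on `δ` of the set
of all blocks whose elements are joined to `α`. -/
structure Cond {K : Type} (b : K → Om) where
  δ : Om
  h : Om → Om → Om
  T : Set Task
  T_count : T.Countable
  T_mono : ∀ t ∈ T, StrictMono t.1
  T_lt : ∀ t ∈ T, ∀ n, t.1 n < δ
  D : Set K
  D_count : D.Countable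
  Y : K → Set Om
  Y_gt : ∀ α ∈ D, ∀ j ∈ Y α, b α < j
  Y_lt : ∀ α ∈ D, ∀ j ∈ Y α, j < δ
  Y_h : ∀ α ∈ D, ∀ j ∈ Y α, ∀ y ∈ Y α, y < j → h j y < h j (b α)

variable {K : Type} {b : K → Om}

instance : Preorder (Cond b) where
  le q p := p.δ ≤ q.δ ∧ (∀ j < p.δ, ∀ y < j, q.h j y = p.h j y) ∧ p.T ⊆ q.T ∧ p.D ⊆ q.D ∧
    (∀ α ∈ p.D, ∀ j < p.δ, j ∈ q.Y α ↔ j ∈ p.Y α) ∧
    (∀ j, p.δ ≤ j → j < q.δ → ∀ t ∈ p.T, Sat t (q.h j))
  le_refl p := ⟨le_rfl, fun _ _ _ _ => rfl, Subset.rfl, Subset.rfl, fun _ _ _ _ => Iff.rfl,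
    fun _ h1 h2 => absurd h1 (not_le.2 h2)⟩
  le_trans r q p := by
    rintro ⟨a1, a2, a3, a4, a5, a6⟩ ⟨b1, b2, b3, b4, b5, b6⟩
    refine ⟨b1.trans a1, fun j hj y hy => ?_, b3.trans a3, b4.trans a4, fun α hα j hj => ?_,
      fun j h1 h2 t ht => ?_⟩
    · rw [a2 j (hj.trans_le b1) y hy, b2 j hj y hy]
    · rw [a5 α (b4 hα) j (hj.trans_le b1), b5 α hα j hj]
    · rcases lt_or_ge j q.δ with h3 | h3
      · exact (b6 j h1 h3 t ht).congr (fun n => (p.T_lt t ht n).trans_le h1)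
          (fun y hy => a2 j h3 y hy)
      · exact a6 j h3 h2 t (b3 ht)

theorem le_def {q p : Cond b} : q ≤ p ↔ p.δ ≤ q.δ ∧ (∀ j < p.δ, ∀ y < j, q.h j y = p.h j y) ∧
    p.T ⊆ q.T ∧ p.D ⊆ q.D ∧ (∀ α ∈ p.D, ∀ j < p.δ, j ∈ q.Y α ↔ j ∈ p.Y α) ∧
    (∀ j, p.δ ≤ j → j < q.δ → ∀ t ∈ p.T, Sat t (q.h j)) := Iff.rfl

theorem le_δ {q p : Cond b} (h : q ≤ p) : p.δ ≤ q.δ := h.1
theorem le_h {q p : Cond b} (h : q ≤ p) {j y : Om} (hj : j < p.δ) (hy : y < j) :
    q.h j y = p.h j y := h.2.1 j hj y hy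
theorem le_T {q p : Cond b} (h : q ≤ p) : p.T ⊆ q.T := h.2.2.1
theorem le_D {q p : Cond b} (h : q ≤ p) : p.D ⊆ q.D := h.2.2.2.1
theorem le_Y {q p : Cond b} (h : q ≤ p) {α : K} (hα : α ∈ p.D) {j : Om} (hj : j < p.δ) :
    j ∈ q.Y α ↔ j ∈ p.Y α := h.2.2.2.2.1 α hα j hj
theorem le_Y' {q p : Cond b} (h : q ≤ p) {α : K} (hα : α ∈ p.D) {j : Om} (hj : j ∈ p.Y α) :
    j ∈ q.Y α := (le_Y h hα (p.Y_lt α hα j hj)).2 hj
theorem le_sat {q p : Cond b} (h : q ≤ p) {j : Om} (h1 : p.δ ≤ j) (h2 : j < q.δ) {t : Task}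
    (ht : t ∈ p.T) : Sat t (q.h j) := h.2.2.2.2.2 j h1 h2 t ht

instance : Nonempty (Cond b) :=
  ⟨⟨Classical.arbitrary _, fun _ y => y, ∅, countable_empty, by simp, by simp, ∅,
    countable_empty, fun _ => ∅, by simp, by simp, by simp⟩⟩

/-- the height can be made large -/
theorem exists_height (p : Cond b) (j : Om) : ∃ q ≤ p, j < q.δ := by
  classical
  obtain ⟨g, hg⟩ := exists_sat p.T p.T_count p.T_mono
  obtain ⟨z, hz⟩ := exists_bound (fun i : Bool => if i then j else p.δ)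
  have hz1 : j < z := by simpa using hz true
  have hz2 : p.δ < z := by simpa using hz false
  refine ⟨⟨z, fun j' y => if j' < p.δ then p.h j' y else g y, p.T, p.T_count, p.T_mono,
    fun t ht n => (p.T_lt t ht n).trans hz2, p.D, p.D_count, p.Y, p.Y_gt,
    fun α hα j hj => (p.Y_lt α hα j hj).trans hz2, ?_⟩, ?_, hz1⟩
  · intro α hα j' hj' y hy hyj
    have := p.Y_lt α hα j' hj'
    simp only [this, if_true]
    exact p.Y_h α hα j' hj' y hy hyj
  · refine ⟨hz2.le, fun j' hj' y _ => by simp [hj'], Subset.rfl, Subset.rfl,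
      fun _ _ _ _ => Iff.rfl, fun j' h1 h2 t ht => ?_⟩
    simp only [not_lt.2 h1, if_false]
    exact hg t ht

/-- a point can be added to the domain -/
theorem exists_mem (p : Cond b) (α : K) : ∃ q ≤ p, α ∈ q.D := by
  classical
  by_cases hα : α ∈ p.D
  · exact ⟨p, le_rfl, hα⟩
  refine ⟨⟨p.δ, p.h, p.T, p.T_count, p.T_mono, p.T_lt, insert α p.D, p.D_count.insert α,
    fun γ => if γ = α then ∅ else p.Y γ, ?_, ?_, ?_⟩, ?_, mem_insert _ _⟩
  · intro γ hγ j hj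
    by_cases h : γ = α
    · simp [h] at hj
    · simp only [h, if_false] at hj
      exact p.Y_gt γ (hγ.resolve_left h) j hj
  · intro γ hγ j hj
    by_cases h : γ = α
    · simp [h] at hj
    · simp only [h, if_false] at hj
      exact p.Y_lt γ (hγ.resolve_left h) j hj
  · intro γ hγ j hj y hy
    by_cases h : γ = α
    · simp [h] at hj
    · simp only [h, if_false] at hj hy
      exact p.Y_h γ (hγ.resolve_left h) j hj y hy
  · refine ⟨le_rfl, fun _ _ _ _ => rfl, Subset.rfl, subset_insert _ _, ?_,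
      fun _ h1 h2 => absurd h1 (not_le.2 h2)⟩
    intro γ hγ j _
    have h : γ ≠ α := fun h => hα (h ▸ hγ)
    simp [h]

/-- lower bounds of decreasing sequences, with new tasks -/
theorem exists_lb (p : ℕ → Cond b) (hp : Antitone p) (S : Set Task) (hS : S.Countable)
    (hmono : ∀ t ∈ S, StrictMono t.1) (hlt : ∀ t ∈ S, ∀ n, ∃ m, t.1 n < (p m).δ) :
    ∃ q : Cond b, (∀ n, q ≤ p n) ∧ S ⊆ q.T := by
  classical
  have hex : ∃ z : Om, ∀ n, (p n).δ ≤ z := by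
    obtain ⟨z, hz⟩ := exists_bound (fun n => (p n).δ)
    exact ⟨z, fun n => (hz n).le⟩
  let δ : Om := wellFounded_lt.min {z : Om | ∀ n, (p n).δ ≤ z} hex
  have hδ1 : ∀ n, (p n).δ ≤ δ := wellFounded_lt.min_mem {z : Om | ∀ n, (p n).δ ≤ z} hex
  have hδ2 : ∀ j < δ, ∃ n, j < (p n).δ := by
    intro j hj
    by_contra hcon
    push Not at hcon
    exact wellFounded_lt.not_lt_min {z : Om | ∀ n, (p n).δ ≤ z} hcon hj
  let N : Om → ℕ := fun j => if h : ∃ n, j < (p n).δ then Nat.find h else 0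
  have hN : ∀ n, ∀ j < (p n).δ, ∀ y < j, (p (N j)).h j y = (p n).h j y := by
    intro n j hj y hy
    have hx : ∃ n, j < (p n).δ := ⟨n, hj⟩
    have h1 : N j = Nat.find hx := dif_pos hx
    have h2 : j < (p (N j)).δ := by rw [h1]; exact Nat.find_spec hx
    have h3 : N j ≤ n := by rw [h1]; exact Nat.find_min' hx hj
    exact (le_h (hp h3) h2 hy).symm
  have hNδ : ∀ j < δ, j < (p (N j)).δ := by
    intro j hj
    have hx := hδ2 j hj
    have h1 : N j = Nat.find hx := dif_pos hx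
    rw [h1]
    exact Nat.find_spec hx
  have hD : ∀ {m n}, m ≤ n → (p m).D ⊆ (p n).D := fun h => le_D (hp h)
  let Y : K → Set Om := fun γ => {y | ∃ n, γ ∈ (p n).D ∧ y ∈ (p n).Y γ}
  have hY : ∀ n, ∀ γ ∈ (p n).D, ∀ j < (p n).δ, (j ∈ Y γ ↔ j ∈ (p n).Y γ) := by
    intro n γ hγ j hj
    constructor
    · rintro ⟨m, hm, hjm⟩
      rcases le_total m n with h | h
      · exact le_Y' (hp h) hm hjm
      · exact (le_Y (hp h) hγ hj).1 hjm
    · intro h
      exact ⟨n, hγ, h⟩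
  refine ⟨⟨δ, fun j y => (p (N j)).h j y, S ∪ ⋃ n, (p n).T,
    hS.union (countable_iUnion fun n => (p n).T_count), ?_, ?_, ⋃ n, (p n).D,
    countable_iUnion fun n => (p n).D_count, Y, ?_, ?_, ?_⟩, fun n => ?_, subset_union_left⟩
  · rintro t (ht | ht)
    · exact hmono t ht
    · obtain ⟨n, hn⟩ := mem_iUnion.1 ht
      exact (p n).T_mono t hn
  · rintro t (ht | ht) n
    · obtain ⟨m, hm⟩ := hlt t ht n
      exact hm.trans_le (hδ1 m)
    · obtain ⟨m, hm⟩ := mem_iUnion.1 ht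
      exact ((p m).T_lt t hm n).trans_le (hδ1 m)
  · rintro γ _ j ⟨n, hn, hj⟩
    exact (p n).Y_gt γ hn j hj
  · rintro γ _ j ⟨n, hn, hj⟩
    exact ((p n).Y_lt γ hn j hj).trans_le (hδ1 n)
  · rintro γ _ j ⟨n, hn, hj⟩ y hy hyj
    have h1 := (p n).Y_lt γ hn j hj
    have h2 : y ∈ (p n).Y γ := (hY n γ hn y (hyj.trans h1)).1 hy
    have h3 := (p n).Y_gt γ hn j hj
    show (p (N j)).h j y < (p (N j)).h j (b γ)
    rw [hN n j h1 y hyj, hN n j h1 _ h3]
    exact (p n).Y_h γ hn j hj y h2 hyj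
  · refine ⟨hδ1 n, hN n, fun t ht => Or.inr (mem_iUnion.2 ⟨n, ht⟩),
      fun γ hγ => mem_iUnion.2 ⟨n, hγ⟩, hY n, fun j h1 h2 t ht => ?_⟩
    have h3 := hNδ j h2
    rcases le_total (N j) n with h | h
    · exact absurd (h3.trans_le (le_δ (hp h))) (not_lt.2 h1)
    · exact le_sat (hp h) h1 h3 ht

/-- amalgamation -/
theorem exists_amalg {q r s : Cond b} (hqs : q ≤ s) (hδ : r.δ = s.δ)
    (hh : ∀ j < s.δ, ∀ y < j, r.h j y = s.h j y) (hT : r.T = s.T)
    (hD : ∀ γ ∈ r.D, γ ∈ q.D → γ ∈ s.D ∧ ∀ j, j ∈ r.Y γ ↔ j ∈ s.Y γ)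
    (α : K) (hαr : α ∈ r.D) (hαq : α ∉ q.D) (Z : Set Om)
    (hZ : Z ⊆ {j | s.δ ≤ j ∧ j < q.δ ∧ ∀ y ∈ r.Y α, q.h j y < q.h j (b α)})
    (hbα : b α < s.δ) (hZs : Z.Subsingleton) :
    ∃ u ≤ q, u ≤ r ∧ Z ⊆ u.Y α := by
  classical
  have hle := le_δ hqs
  have hYq : ∀ γ ∈ r.D, γ ∈ q.D → ∀ j < s.δ, (j ∈ q.Y γ ↔ j ∈ r.Y γ) := by
    intro γ hr hq j hj
    rw [le_Y hqs (hD γ hr hq).1 hj, (hD γ hr hq).2 j]
  let Y : K → Set Om := fun γ => if γ ∈ q.D then q.Y γ else if γ = α then r.Y γ ∪ Z else r.Y γ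
  have hY1 : ∀ γ ∈ q.D, Y γ = q.Y γ := fun γ h => if_pos h
  have hY2 : Y α = r.Y α ∪ Z := by simp only [Y, hαq, if_false, if_true]
  have hY3 : ∀ γ, γ ∉ q.D → γ ≠ α → Y γ = r.Y γ := by
    intro γ h1 h2
    simp only [Y, h1, h2, if_false]
  have hqr : ∀ j < r.δ, ∀ y < j, q.h j y = r.h j y := by
    intro j hj y hy
    rw [hδ] at hj
    rw [le_h hqs hj hy, hh j hj y hy]
  have hrq : r.δ ≤ q.δ := hδ ▸ hle
  refine ⟨⟨q.δ, q.h, q.T, q.T_count, q.T_mono, q.T_lt, q.D ∪ r.D, q.D_count.union r.D_count, Y,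
    ?_, ?_, ?_⟩, ?_, ?_, ?_⟩
  · intro γ hγ j hj
    by_cases h1 : γ ∈ q.D
    · rw [hY1 γ h1] at hj
      exact q.Y_gt γ h1 j hj
    · have hr := hγ.resolve_left h1
      by_cases h2 : γ = α
      · subst h2
        rw [hY2] at hj
        rcases hj with hj | hj
        · exact r.Y_gt γ hr j hj
        · exact hbα.trans_le (hZ hj).1
      · rw [hY3 γ h1 h2] at hj
        exact r.Y_gt γ hr j hj
  · intro γ hγ j hj
    by_cases h1 : γ ∈ q.D
    · rw [hY1 γ h1] at hj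
      exact q.Y_lt γ h1 j hj
    · have hr := hγ.resolve_left h1
      by_cases h2 : γ = α
      · subst h2
        rw [hY2] at hj
        rcases hj with hj | hj
        · exact (r.Y_lt γ hr j hj).trans_le hrq
        · exact (hZ hj).2.1
      · rw [hY3 γ h1 h2] at hj
        exact (r.Y_lt γ hr j hj).trans_le hrq
  · have key : ∀ γ ∈ r.D, ∀ j ∈ r.Y γ, ∀ y ∈ r.Y γ, y < j → q.h j y < q.h j (b γ) := by
      intro γ hr j hj y hy hyj
      have h1 := r.Y_lt γ hr j hj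
      rw [hqr j h1 y hyj, hqr j h1 _ (r.Y_gt γ hr j hj)]
      exact r.Y_h γ hr j hj y hy hyj
    intro γ hγ j hj y hy hyj
    by_cases h1 : γ ∈ q.D
    · rw [hY1 γ h1] at hj hy
      exact q.Y_h γ h1 j hj y hy hyj
    · have hr := hγ.resolve_left h1
      by_cases h2 : γ = α
      · subst h2
        rw [hY2] at hj hy
        rcases hj with hj | hj
        · rcases hy with hy | hy
          · exact key γ hr j hj y hy hyj
          · exact absurd (hyj.trans ((r.Y_lt γ hr j hj).trans_le (hδ ▸ (hZ hy).1)))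
              (lt_irrefl _)
        · rcases hy with hy | hy
          · exact (hZ hj).2.2 y hy
          · rw [hZs hj hy] at hyj
            exact absurd hyj (lt_irrefl _)
      · rw [hY3 γ h1 h2] at hj hy
        exact key γ hr j hj y hy hyj
  · exact ⟨le_rfl, fun _ _ _ _ => rfl, Subset.rfl, subset_union_left,
      fun γ hγ j _ => by
        show j ∈ Y γ ↔ _
        rw [hY1 γ hγ], fun _ h1 h2 => absurd h1 (not_le.2 h2)⟩
  · have hTq : r.T ⊆ q.T := by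
      rw [hT]
      exact le_T hqs
    refine ⟨hrq, hqr, hTq, subset_union_right, fun γ hγ j hj => ?_,
      fun j h1 h2 t ht => le_sat hqs (hδ ▸ h1) h2 (hT ▸ ht)⟩
    by_cases h1 : γ ∈ q.D
    · show j ∈ Y γ ↔ _
      rw [hY1 γ h1, hYq γ hγ h1 j (hδ ▸ hj)]
    · by_cases h2 : γ = α
      · subst h2
        show j ∈ Y γ ↔ _
        rw [hY2]
        constructor
        · rintro (h | h)
          · exact h
          · exact absurd (hδ ▸ hj) (not_lt.2 (hZ h).1)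
        · exact Or.inl
      · show j ∈ Y γ ↔ _
        rw [hY3 γ h1 h2]
  · show Z ⊆ Y α
    rw [hY2]
    exact subset_union_right

end Pool.Agent.T2H97.EDM
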