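import Mathlib
import Pool.Agent.T2H97.EDM.Cond

set_option autoImplicit false

/-!
# Uniform subfamilies of large families of conditions
-/

namespace Pool.Agent.T2H97.EDM

open Cardinal Set Pool.Agent.Helper669.KDelta

/-- countable subsets -/
abbrev CS (X : Type) : Type := {s : Set X // s.Countable}

theorem mk_CS {X : Type} (hX : #X ≤ 𝔠) : #(CS X) ≤ 𝔠 := by
  have h1 : #(CS X) ≤ #{t : Set X // #t ≤ ℵ₀} := by
    refine mk_le_of_injective (f := fun s => ⟨s.1, mk_le_aleph0_iff.2 s.2⟩) ?_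
    intro s t h
    exact Subtype.ext (by simpa using h)
  refine h1.trans ((mk_bounded_set_le X ℵ₀).trans ?_)
  calc max #X ℵ₀ ^ (ℵ₀ : Cardinal.{0}) ≤ 𝔠 ^ (ℵ₀ : Cardinal.{0}) :=
        power_le_power_right (max_le hX aleph0_le_continuum)
    _ = 𝔠 := continuum_power_aleph0

theorem mk_prod_le {X Y : Type} (hX : #X ≤ 𝔠) (hY : #Y ≤ 𝔠) : #(X × Y) ≤ 𝔠 := by
  rw [mk_prod, lift_id, lift_id]
  calc #X * #Y ≤ 𝔠 * 𝔠 := mul_le_mul' hX hY
    _ = 𝔠 := continuum_mul_self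

theorem mk_Om_le : #Om ≤ 𝔠 := by
  rw [mk_Om]
  exact aleph_one_le_continuum

theorem mk_fun_le {X : Type} (hX : #X ≤ 𝔠) : #(ℕ → X) ≤ 𝔠 := by
  have : #(ℕ → X) = #X ^ (ℵ₀ : Cardinal.{0}) := by
    rw [← mk_nat, power_def]
  rw [this]
  calc #X ^ (ℵ₀ : Cardinal.{0}) ≤ 𝔠 ^ (ℵ₀ : Cardinal.{0}) := power_le_power_right hX
    _ = 𝔠 := continuum_power_aleph0

theorem mk_Task_le : #Task ≤ 𝔠 :=
  mk_prod_le (mk_fun_le mk_Om_le) (mk_fun_le (mk_fun_le mk_Om_le))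

theorem pigeon {E C : Type} (hE : ¬ #E ≤ 𝔠) (hC : #C ≤ 𝔠) (f : E → C) :
    ∃ c, ¬ #(f ⁻¹' {c} : Set E) ≤ 𝔠 := by
  by_contra hcon
  push Not at hcon
  apply hE
  have h := small_iUnion aleph0_le_continuum hC (fun c => f ⁻¹' {c}) hcon
  have h2 : (⋃ c, f ⁻¹' {c}) = (univ : Set E) := by
    ext e
    simp
  rw [h2, mk_univ] at h
  exact h

variable {K : Type} {b : K → Om}

/-- the code of a condition and a countable set, relative to a root -/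
abbrev Code (R : Set K) : Type :=
  Om × CS (Om × Om × Om) × CS Task × CS R × CS (R × Om) × CS Om

theorem mk_Code_le {R : Set K} (hR : #R ≤ 𝔠) : #(Code R) ≤ 𝔠 := by
  have h3 : #(Om × Om × Om) ≤ 𝔠 := mk_prod_le mk_Om_le (mk_prod_le mk_Om_le mk_Om_le)
  exact mk_prod_le mk_Om_le (mk_prod_le (mk_CS h3) (mk_prod_le (mk_CS mk_Task_le)
    (mk_prod_le (mk_CS hR) (mk_prod_le (mk_CS (mk_prod_le hR mk_Om_le)) (mk_CS mk_Om_le)))))

theorem countable_Iio (z : Om) : (Iio z).Countable := by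
  have h : #(Iio z) < ℵ₁ := by
    have := mk_Iio_toType_ord_lt (c := (ℵ₁ : Cardinal.{0})) z
    simpa using this
  have h' : #(Iio z) < Order.succ ℵ₀ := by
    rw [succ_aleph0]
    exact h
  exact mk_le_aleph0_iff.1 (Order.lt_succ_iff.1 h')

theorem countable_Y (p : Cond b) {α : K} (hα : α ∈ p.D) : (p.Y α).Countable :=
  (countable_Iio p.δ).mono fun j hj => p.Y_lt α hα j hj

/-- the code of a condition -/
noncomputable def code (R : Set K) (p : Cond b) (Z : CS Om) : Code R :=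
  (p.δ, ⟨{x | x.2.1 < x.1 ∧ x.1 < p.δ ∧ x.2.2 = p.h x.1 x.2.1}, by
      have h1 : ((fun x : Om × Om => (x.1, x.2, p.h x.1 x.2)) '' (Iio p.δ ×ˢ Iio p.δ)).Countable :=
        ((countable_Iio p.δ).prod (countable_Iio p.δ)).image _
      refine h1.mono ?_
      rintro ⟨j, y, z⟩ ⟨h2, h3, h4⟩
      exact ⟨(j, y), ⟨h3, h2.trans h3⟩, by simpa using h4.symm⟩⟩,
    ⟨p.T, p.T_count⟩, ⟨{x | x.1 ∈ p.D}, p.D_count.preimage Subtype.val_injective⟩,
    ⟨{x | x.1.1 ∈ p.D ∧ x.2 ∈ p.Y x.1.1}, by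
      have h1 : {x : R | x.1 ∈ p.D}.Countable := p.D_count.preimage Subtype.val_injective
      refine (h1.prod (countable_Iio p.δ)).mono ?_
      rintro ⟨x, y⟩ ⟨h2, h3⟩
      exact ⟨h2, p.Y_lt _ h2 _ h3⟩⟩, Z)

/-- a uniform family of conditions -/
structure Uniform {E : Type} (r : E → Cond b) (Z : E → Set Om) (F : Set E) (R : Set K) :
    Prop where
  δ : ∀ e ∈ F, ∀ e' ∈ F, (r e).δ = (r e').δ
  h : ∀ e ∈ F, ∀ e' ∈ F, ∀ j < (r e).δ, ∀ y < j, (r e).h j y = (r e').h j y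
  T : ∀ e ∈ F, ∀ e' ∈ F, (r e).T = (r e').T
  Z : ∀ e ∈ F, ∀ e' ∈ F, Z e = Z e'
  root : ∀ e ∈ F, R ⊆ (r e).D
  D : ∀ e ∈ F, ∀ e' ∈ F, e ≠ e' → (r e).D ∩ (r e').D ⊆ R
  Y : ∀ e ∈ F, ∀ e' ∈ F, ∀ γ ∈ R, ∀ j, j ∈ (r e).Y γ ↔ j ∈ (r e').Y γ

theorem exists_uniform {E : Type} (hE : ¬ #E ≤ 𝔠) (r : E → Cond b) (Z : E → Set Om)
    (hZ : ∀ e, (Z e).Countable) : ∃ (F : Set E) (R : Set K), ¬ #F ≤ 𝔠 ∧ Uniform r Z F R := by
  obtain ⟨F, R, hF, hR, hFR⟩ := weak_delta (K := K) aleph0_le_continuum hE (fun e => (r e).D)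
    (fun e => (mk_le_aleph0_iff.2 (r e).D_count).trans_lt aleph0_lt_continuum)
  obtain ⟨c, hc⟩ := pigeon hF (mk_Code_le hR) (fun e : F => code R (r e.1) ⟨Z e.1, hZ e.1⟩)
  let F' : Set E := Subtype.val '' ((fun e : F => code R (r e.1) ⟨Z e.1, hZ e.1⟩) ⁻¹' {c})
  have hF' : ¬ #F' ≤ 𝔠 := by
    rwa [mk_image_eq Subtype.val_injective]
  have hcode : ∀ e ∈ F', ∀ e' ∈ F', e ∈ F ∧ e' ∈ F ∧
      code R (r e) ⟨Z e, hZ e⟩ = code R (r e') ⟨Z e', hZ e'⟩ := by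
    rintro _ ⟨e, he, rfl⟩ _ ⟨e', he', rfl⟩
    exact ⟨e.2, e'.2, he.trans he'.symm⟩
  have hne : F'.Nonempty := exists_of_not_small hF'
  obtain ⟨e0, he0⟩ := hne
  refine ⟨F', R ∩ (r e0).D, hF', ?_⟩
  have hD : ∀ e ∈ F', ∀ e' ∈ F', ∀ γ ∈ R, γ ∈ (r e).D → γ ∈ (r e').D := by
    intro e he e' he' γ hγ hγe
    obtain ⟨-, -, h⟩ := hcode e he e' he'
    simp only [code, Prod.mk.injEq, Subtype.mk.injEq] at h
    have h4 := h.2.2.2.1
    have : (⟨γ, hγ⟩ : R) ∈ {x : R | x.1 ∈ (r e').D} := h4 ▸ hγe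
    exact this
  refine ⟨?_, ?_, ?_, ?_, ?_, ?_, ?_⟩
  · intro e he e' he'
    obtain ⟨-, -, h⟩ := hcode e he e' he'
    simp only [code, Prod.mk.injEq] at h
    exact h.1
  · intro e he e' he' j hj y hy
    obtain ⟨-, -, h⟩ := hcode e he e' he'
    simp only [code, Prod.mk.injEq, Subtype.mk.injEq] at h
    have h2 := h.2.1
    have : (j, y, (r e).h j y) ∈ {x : Om × Om × Om | x.2.1 < x.1 ∧ x.1 < (r e').δ ∧
        x.2.2 = (r e').h x.1 x.2.1} := h2 ▸ ⟨hy, hj, rfl⟩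
    exact this.2.2
  · intro e he e' he'
    obtain ⟨-, -, h⟩ := hcode e he e' he'
    simp only [code, Prod.mk.injEq, Subtype.mk.injEq] at h
    exact h.2.2.1
  · intro e he e' he'
    obtain ⟨-, -, h⟩ := hcode e he e' he'
    simp only [code, Prod.mk.injEq, Subtype.mk.injEq] at h
    exact h.2.2.2.2.2
  · intro e he γ hγ
    exact hD e0 he0 e he γ hγ.1 hγ.2
  · intro e he e' he' hne γ hγ
    have h1 := hFR e (hcode e he e he).1 e' (hcode e' he' e' he').1 hne hγ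
    exact ⟨h1, hD e he e0 he0 γ h1 hγ.1⟩
  · intro e he e' he' γ hγ j
    have key : ∀ e ∈ F', ∀ e' ∈ F', j ∈ (r e).Y γ → j ∈ (r e').Y γ := by
      intro e he e' he' hj
      obtain ⟨-, -, h⟩ := hcode e he e' he'
      simp only [code, Prod.mk.injEq, Subtype.mk.injEq] at h
      have h5 := h.2.2.2.2.1
      have h6 : ((⟨γ, hγ.1⟩ : R), j) ∈ {x : R × Om | x.1.1 ∈ (r e').D ∧ x.2 ∈ (r e').Y x.1.1} :=
        h5 ▸ ⟨hD e0 he0 e he γ hγ.1 hγ.2, hj⟩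
      exact h6.2
    exact ⟨key e he e' he', key e' he' e he⟩

/-- any large family of conditions has two compatible members -/
theorem exists_compatible {E : Type} (hE : ¬ #E ≤ 𝔠) (r : E → Cond b) :
    ∃ e e', e ≠ e' ∧ ∃ u, u ≤ r e ∧ u ≤ r e' := by
  classical
  obtain ⟨F, R, hF, hU⟩ := exists_uniform hE r (fun _ => ∅) (fun _ => countable_empty)
  obtain ⟨e, he⟩ := exists_of_not_small hF
  obtain ⟨e', he', hne'⟩ := exists_of_not_small
    (not_small_diff aleph0_le_continuum hF (small_singleton aleph0_le_continuum e))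
  have hne : e ≠ e' := fun h => hne' (by simp [h])
  refine ⟨e, e', hne, ?_⟩
  -- amalgamate
  have hinter : ∀ γ, γ ∈ (r e).D → γ ∈ (r e').D → γ ∈ R := fun γ h h' =>
    hU.D e he e' he' hne ⟨h, h'⟩
  let Y : K → Set Om := fun γ => if γ ∈ (r e).D then (r e).Y γ else (r e').Y γ
  have hY1 : ∀ γ ∈ (r e).D, Y γ = (r e).Y γ := fun γ h => if_pos h
  have hY2 : ∀ γ ∈ (r e').D, Y γ = (r e').Y γ := by
    intro γ h
    by_cases h1 : γ ∈ (r e).D
    · rw [hY1 γ h1]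
      ext j
      exact hU.Y e he e' he' γ (hinter γ h1 h) j
    · exact if_neg h1
  have hδ := hU.δ e he e' he'
  refine ⟨⟨(r e).δ, (r e).h, (r e).T, (r e).T_count, (r e).T_mono, (r e).T_lt,
    (r e).D ∪ (r e').D, (r e).D_count.union (r e').D_count, Y, ?_, ?_, ?_⟩, ?_, ?_⟩
  · rintro γ (hγ | hγ) j hj
    · rw [hY1 γ hγ] at hj
      exact (r e).Y_gt γ hγ j hj
    · rw [hY2 γ hγ] at hj
      exact (r e').Y_gt γ hγ j hj
  · rintro γ (hγ | hγ) j hj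
    · rw [hY1 γ hγ] at hj
      exact (r e).Y_lt γ hγ j hj
    · rw [hY2 γ hγ] at hj
      rw [hδ]
      exact (r e').Y_lt γ hγ j hj
  · rintro γ (hγ | hγ) j hj y hy hyj
    · rw [hY1 γ hγ] at hj hy
      exact (r e).Y_h γ hγ j hj y hy hyj
    · rw [hY2 γ hγ] at hj hy
      have h1 := (r e').Y_lt γ hγ j hj
      have h2 := (r e').Y_gt γ hγ j hj
      rw [hU.h e he e' he' j (hδ ▸ h1) y hyj, hU.h e he e' he' j (hδ ▸ h1) _ h2]
      exact (r e').Y_h γ hγ j hj y hy hyj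
  · refine ⟨le_rfl, fun _ _ _ _ => rfl, Subset.rfl, subset_union_left, fun γ hγ j _ => ?_,
      fun _ h1 h2 => absurd h1 (not_le.2 h2)⟩
    show j ∈ Y γ ↔ _
    rw [hY1 γ hγ]
  · refine ⟨hδ.ge, fun j hj y hy => hU.h e he e' he' j (hδ ▸ hj) y hy,
      (hU.T e he e' he').ge, subset_union_right, fun γ hγ j _ => ?_,
      fun j h1 h2 => absurd (hδ.le.trans h1) (not_le.2 h2)⟩
    show j ∈ Y γ ↔ _
    rw [hY2 γ hγ]

end Pool.Agent.T2H97.EDM
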