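import Mathlib
import Pool.Agent.T2H97.EDM.Count
import Pool.Agent.T2H97.EDM.Defs

set_option autoImplicit false

/-!
# The extension
-/

namespace Pool.Agent.T2H97.EDM

open Cardinal Set Pool.Agent.Helper669.KDelta Pool.Agent.Helper669.Forcing

variable {K : Type} {b : K → Om}

/-- countably many dense sets are met -/
theorem exists_all_nat (p : Cond b) (A : ℕ → Set (Cond b)) (hA : ∀ n, Down (A n))
    (hd : ∀ n, ∀ q ≤ p, ∃ r ≤ q, r ∈ A n) : ∃ r ≤ p, ∀ n, r ∈ A n := by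
  choose! f hf1 hf2 using hd
  let s : ℕ → {q : Cond b // q ≤ p} := fun n =>
    Nat.rec ⟨p, le_rfl⟩ (fun n q => ⟨f n q.1, (hf1 n q.1 q.2).trans q.2⟩) n
  have hs : ∀ n, (s (n + 1)).1 = f n (s n).1 := fun n => rfl
  have hanti : Antitone fun n => (s n).1 := by
    refine antitone_nat_of_succ_le fun n => ?_
    rw [hs]
    exact hf1 n _ (s n).2
  obtain ⟨q, hq, -⟩ := exists_lb (fun n => (s n).1) hanti ∅ countable_empty (by simp) (by simp)
  refine ⟨q, (hq 0).trans (s 0).2, fun n => hA n _ (hf2 n (s n).1 (s n).2) q ?_⟩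
  rw [← hs]
  exact hq (n + 1)

theorem exists_all {ι : Type} [Countable ι] (p : Cond b) (A : ι → Set (Cond b))
    (hA : ∀ n, Down (A n)) (hd : ∀ n, ∀ q ≤ p, ∃ r ≤ q, r ∈ A n) : ∃ r ≤ p, ∀ n, r ∈ A n := by
  rcases isEmpty_or_nonempty ι with h | h
  · exact ⟨p, le_rfl, fun n => h.elim n⟩
  · obtain ⟨f, hf⟩ := exists_surjective_nat ι
    obtain ⟨r, hr, hr'⟩ := exists_all_nat p (fun n => A (f n)) (fun n => hA _) (fun n => hd _)
    refine ⟨r, hr, fun i => ?_⟩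
    obtain ⟨n, rfl⟩ := hf i
    exact hr' n

/-- a named function with countable domain is in the ground model -/
theorem exists_decide {X Y : Type} [Countable X] (p : Cond b) (R : X → Y → Set (Cond b))
    (hR : p ∈ IsFun R) : ∃ q ≤ p, ∃ f : X → Y, ∀ x, q ∈ meets (R x (f x)) := by
  obtain ⟨q, hq, hq'⟩ := exists_all p (fun x => {r | ∃ y, r ∈ meets (R x y)})
    (fun x r hr r' hr' => by
      obtain ⟨y, hy⟩ := hr
      exact ⟨y, down_meets _ _ hy _ hr'⟩)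
    (fun x q hq => by
      obtain ⟨r, hr, y, hy⟩ := IsFun.total (down_IsFun R _ hR _ hq) x
      exact ⟨r, hr, y, hy⟩)
  choose f hf using hq'
  exact ⟨q, hq, f, hf⟩

theorem fiber_large {X Y : Type} (f : X → Y) (hY : #Y < #X) (hX : 𝔠 < #X) :
    ∃ y, ¬ #(f ⁻¹' {y} : Set X) ≤ 𝔠 := by
  by_contra hcon
  push Not at hcon
  have h := small_iUnion (c := max #Y 𝔠) (aleph0_le_continuum.trans (le_max_right _ _))
    (le_max_left _ _) (fun y => f ⁻¹' {y}) (fun y => (hcon y).trans (le_max_right _ _))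
  have h2 : (⋃ y, f ⁻¹' {y}) = (univ : Set X) := by
    ext e
    simp
  rw [h2, mk_univ] at h
  exact absurd h (not_le.2 (max_lt hY hX))

/-- large cardinals are preserved -/
theorem staysCardinal_of_lt (ν : Cardinal.{0}) (hν : 𝔠 < ν) (p : Cond b) :
    p ∈ StaysCardinal (Cond b) ν := by
  intro μ hμ q _ hq
  obtain ⟨r, _, R, hR1, hR2⟩ := mem_fex.1 hq q le_rfl
  have h1 : ∀ y, ∃ x, ∃ s ≤ r, s ∈ meets (R x y) := by
    intro y
    obtain ⟨s, hs, x, hx⟩ := mem_fex.1 (hR2 y) r le_rfl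
    exact ⟨x, s, hs, hx⟩
  choose x s hs hsx using h1
  obtain ⟨x0, hx0⟩ := fiber_large x (by rwa [mk_out, mk_out]) (by rwa [mk_out])
  obtain ⟨e, e', hne, u, hu, hu'⟩ := exists_compatible hx0 (fun y => s y.1)
  have he : x e.1 = x0 := e.2
  have he' : x e'.1 = x0 := e'.2
  have hur := down_IsFun R _ hR1 u (hu.trans (hs _))
  have h2 := down_meets _ _ (hsx e.1) u hu
  have h3 := down_meets _ _ (hsx e'.1) u hu'
  rw [he] at h2
  rw [he'] at h3
  exact hne (Subtype.ext (IsFun.unique hur h2 h3))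

/-- `ℵ₁` is preserved -/
theorem staysCardinal_aleph_one (p : Cond b) : p ∈ StaysCardinal (Cond b) ℵ₁ := by
  intro μ hμ q _ hq
  obtain ⟨r, _, R, hR1, hR2⟩ := mem_fex.1 hq q le_rfl
  have hc : Countable μ.out := by
    rw [← mk_le_aleph0_iff, mk_out]
    rw [← succ_aleph0] at hμ
    exact Order.lt_succ_iff.1 hμ
  obtain ⟨s, hs, f, hf⟩ := exists_decide r R hR1
  have h1 : ∃ z, z ∉ range f := by
    by_contra hcon
    push Not at hcon
    have h2 : #(ℵ₁ : Cardinal.{0}).out ≤ #μ.out := mk_le_of_surjective (f := f) hcon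
    rw [mk_out, mk_out] at h2
    exact absurd h2 (not_le.2 hμ)
  obtain ⟨z, hz⟩ := h1
  obtain ⟨u, hu, x, hx⟩ := mem_fex.1 (hR2 z) s hs
  have h3 := down_meets _ _ (hf x) u hu
  exact hz ⟨x, IsFun.unique (down_IsFun R _ hR1 u (hu.trans hs)) h3 hx⟩

variable {L : Type} [LinearOrder L] {i : L → K}

/-- the cofinality of `L` stays uncountable -/
theorem uncountableCofinality (hb : Monotone fun x => b (i x)) (hbK : ∀ ξ, ∃ z, ξ < b (i z))
    (p : Cond b) : p ∈ UncountableCofinality (Cond b) L := by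
  intro q _ hq
  obtain ⟨r, _, R, hR1, hR2⟩ := mem_fex.1 hq q le_rfl
  obtain ⟨s, hs, f, hf⟩ := exists_decide r R hR1
  obtain ⟨ξ, hξ⟩ := exists_bound (fun n => b (i (f n)))
  obtain ⟨z, hz⟩ := hbK ξ
  have hfz : ∀ n, f n < z := by
    intro n
    by_contra hcon
    exact absurd (hb (not_lt.1 hcon)) (not_le.2 ((hξ n).trans hz))
  obtain ⟨u, hu, n, hn⟩ := mem_fex.1 (hR2 z) s hs
  obtain ⟨v, hv, y, hy1, hy2⟩ := mem_fex.1 hn u le_rfl
  have h3 := down_meets _ _ (hf n) v (hv.trans hu)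
  have h4 := IsFun.unique (down_IsFun R _ hR1 v ((hv.trans hu).trans hs)) h3 hy2
  rw [← h4] at hy1
  exact absurd hy1 (not_le.2 (hfz n))

omit [LinearOrder L] in
/-- the name of the colouring -/
def col (b : K → Om) (i : L → K) (x y : L) : Set (Cond b) := {p | i x ∈ p.D ∧ b (i y) ∈ p.Y (i x)}

omit [LinearOrder L] in
theorem down_col (x y : L) : Down (col b i x y) :=
  fun _ hp _ hq => ⟨le_D hq hp.1, le_Y' hq hp.1 hp.2⟩

/-- no homogeneous set of colour one and type `ω + 1` -/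
theorem noOmegaSuccOne (p : Cond b) : p ∈ NoOmegaSuccOne (col b i) := by
  intro f γ q _ hq
  obtain ⟨hq1, hq2, hq3⟩ := hq
  obtain ⟨r, hr, x, hx⟩ := exists_decide q f hq1
  have key : ∀ n : ℕ, ∀ s ≤ r, ∃ u ≤ s, u ∈ col b i (x n) (x (n + 1)) ∧ u ∈ col b i (x n) γ := by
    intro n s hs
    obtain ⟨u, hu, hu1, hu2⟩ := mem_fimp.1 (hq2 n (n + 1) (x n) (x (n + 1))) s (hs.trans hr)
      ⟨Nat.lt_succ_self n, down_meets _ _ (hx n) _ hs, down_meets _ _ (hx (n + 1)) _ hs⟩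
    obtain ⟨v, hv, hv1⟩ := exists_of_meets (down_col _ _) hu2
    have hvs := hv.trans hu
    obtain ⟨w, hw, hw1, hw2⟩ := mem_fimp.1 (hq3 n (x n)) v ((hvs.trans hs).trans hr)
      (down_meets _ _ (hx n) _ (hvs.trans hs))
    obtain ⟨z, hz, hz1⟩ := exists_of_meets (down_col _ _) hw2
    exact ⟨z, (hz.trans hw).trans hvs, down_col _ _ _ hv1 _ (hz.trans hw), hz1⟩
  obtain ⟨s, hs, hs'⟩ := exists_all_nat r
    (fun n => {u | u ∈ col b i (x n) (x (n + 1)) ∧ u ∈ col b i (x n) γ})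
    (fun n u hu v hv => ⟨down_col _ _ _ hu.1 _ hv, down_col _ _ _ hu.2 _ hv⟩) key
  have hdec : ∀ n, s.h (b (i γ)) (b (i (x (n + 1)))) < s.h (b (i γ)) (b (i (x n))) := by
    intro n
    obtain ⟨⟨h1, h2⟩, -, h3⟩ := hs' n
    obtain ⟨-, h4, h5⟩ := hs' (n + 1)
    exact s.Y_h (i (x n)) h1 (b (i γ)) h3 _ h2 (s.Y_gt _ h4 _ h5)
  exact (RelEmbedding.not_wellFounded
    (RelEmbedding.natGT (r := (· < ·)) (fun n => s.h (b (i γ)) (b (i (x n)))) hdec))
    wellFounded_lt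

omit [LinearOrder L] in
/-- the sets named of full size are unbounded, and have many potential elements in some block -/
theorem exists_block (hL : 𝔠 < #L) (hbL : ∀ ξ, #{x | b (i x) ≤ ξ} < #L) (H : L → Set (Cond b))
    (p : Cond b) (hp : p ∈ FullSize fun x => meets (H x)) (q : Cond b) (hq : q ≤ p) (ξ : Om) :
    ∃ a, ξ ≤ a ∧ ¬ #{α | b (i α) = a ∧ ∃ r ≤ q, r ∈ meets (H α)} ≤ 𝔠 := by
  by_contra hcon
  push Not at hcon
  obtain ⟨s, hs, R, hR1, hR2, hR3⟩ := mem_fex.1 hp q hq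
  let A : Set L := {α | ∃ r ≤ q, r ∈ meets (H α)}
  have hA : #A < #L := by
    have h1 : A ⊆ {x | b (i x) ≤ ξ} ∪
        ⋃ a : Om, {α | b (i α) = a ∧ ξ ≤ a ∧ ∃ r ≤ q, r ∈ meets (H α)} := by
      intro α hα
      rcases le_total (b (i α)) ξ with h | h
      · exact Or.inl h
      · exact Or.inr (mem_iUnion.2 ⟨b (i α), rfl, h, hα⟩)
    have h2 : #(⋃ a : Om, {α | b (i α) = a ∧ ξ ≤ a ∧ ∃ r ≤ q, r ∈ meets (H α)} : Set L) ≤ 𝔠 := by
      refine small_iUnion aleph0_le_continuum mk_Om_le _ fun a => ?_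
      by_cases h : ξ ≤ a
      · refine small_mono (fun α hα => ?_) (hcon a h)
        exact ⟨hα.1, hα.2.2⟩
      · have : {α | b (i α) = a ∧ ξ ≤ a ∧ ∃ r ≤ q, r ∈ meets (H α)} = (∅ : Set L) := by
          ext α
          simp [h]
        rw [this, mk_eq_zero]
        exact zero_le
    refine ((mk_le_mk_of_subset h1).trans (mk_union_le _ _)).trans_lt ?_
    exact add_lt_of_lt (aleph0_le_continuum.trans hL.le) (hbL ξ) (h2.trans_lt hL)
  have h1 : ∀ x, ∃ y, ∃ r ≤ s, r ∈ meets (R x y) ∧ r ∈ meets (H y) := by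
    intro x
    obtain ⟨r, hr, y, hy⟩ := IsFun.total hR1 x
    obtain ⟨r', hr', h⟩ := mem_fimp.1 (hR3 x y) r hr hy
    exact ⟨y, r', hr'.trans hr, down_meets _ _ hy _ hr', h⟩
  choose y r hr hry hrH using h1
  obtain ⟨y0, hy0⟩ := fiber_large (fun x => (⟨y x, r x, (hr x).trans hs, hrH x⟩ : A)) hA hL
  obtain ⟨e, e', hne, u, hu, hu'⟩ := exists_compatible hy0 (fun x => r x.1)
  have he : y e.1 = y0.1 := congrArg Subtype.val e.2
  have he' : y e'.1 = y0.1 := congrArg Subtype.val e'.2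
  have h2 := down_meets _ _ (hry e.1) u hu
  have h3 := down_meets _ _ (hry e'.1) u hu'
  rw [he] at h2
  rw [he'] at h3
  exact hne (Subtype.ext (IsInj.eq (down_IsInj R _ hR2 u (hu.trans (hr _))) h2 h3))

/-- One step of the construction. -/
structure StepData (i : L → K) (H : L → Set (Cond b)) (p : Cond b) where
  a : Om
  E : Set L
  r : L → Cond b
  Z : Set Om
  R : Set K
  s : Cond b
  pa : p.δ ≤ a
  hsp : s ≤ p
  has : a < s.δ
  hE : ¬ E.Countable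
  hR : R ⊆ s.D
  hb : ∀ α ∈ E, b (i α) = a
  hH : ∀ α ∈ E, r α ∈ meets (H α)
  hα : ∀ α ∈ E, i α ∈ (r α).D
  hδ : ∀ α ∈ E, (r α).δ = s.δ
  hh : ∀ α ∈ E, ∀ j < s.δ, ∀ y < j, (r α).h j y = s.h j y
  hT : ∀ α ∈ E, (r α).T = s.T
  hZ : ∀ α ∈ E, (r α).Y (i α) = Z
  hZc : Z.Countable
  hD : ∀ α ∈ E, ∀ α' ∈ E, α ≠ α' → (r α).D ∩ (r α').D ⊆ R
  hY : ∀ α ∈ E, ∀ γ ∈ R, ∀ j, j ∈ (r α).Y γ ↔ j ∈ s.Y γ

omit [LinearOrder L] in
theorem exists_step (hL : 𝔠 < #L) (hbL : ∀ ξ, #{x | b (i x) ≤ ξ} < #L) (H : L → Set (Cond b))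
    (p : Cond b) (hp : p ∈ FullSize fun x => meets (H x)) (q : Cond b) (hq : q ≤ p) :
    Nonempty (StepData i H q) := by
  obtain ⟨a, hqa, ha⟩ := exists_block hL hbL H p hp q hq q.δ
  have h1 : ∀ α ∈ {α | b (i α) = a ∧ ∃ r ≤ q, r ∈ meets (H α)},
      ∃ r ≤ q, a < r.δ ∧ i α ∈ r.D ∧ r ∈ meets (H α) := by
    rintro α ⟨-, r, hr, hrα⟩
    obtain ⟨r1, hr1, h1⟩ := exists_mem r (i α)
    obtain ⟨r2, hr2, h2⟩ := exists_height r1 a
    exact ⟨r2, (hr2.trans hr1).trans hr, h2, le_D hr2 h1, down_meets _ _ hrα _ (hr2.trans hr1)⟩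
  choose! r hrq hrδ hrD hrH using h1
  obtain ⟨F, R, hF, hU⟩ := exists_uniform ha (fun e => r e.1) (fun e => (r e.1).Y (i e.1))
    (fun e => countable_Y _ (hrD e.1 e.2))
  obtain ⟨e0, he0⟩ := exists_of_not_small hF
  refine ⟨⟨a, Subtype.val '' F, r, (r e0.1).Y (i e0.1), R, r e0.1, hqa, hrq _ e0.2,
    hrδ _ e0.2, ?_, hU.root e0 he0, ?_, ?_, ?_, ?_, ?_, ?_, ?_,
    countable_Y _ (hrD e0.1 e0.2), ?_, ?_⟩⟩
  · intro hc
    apply hF
    have h2 : F.Countable :=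
      countable_of_injective_of_countable_image (Subtype.val_injective.injOn) hc
    exact (mk_le_aleph0_iff.2 h2).trans aleph0_le_continuum
  · rintro _ ⟨e, he, rfl⟩
    exact e.2.1
  · rintro _ ⟨e, he, rfl⟩
    exact hrH _ e.2
  · rintro _ ⟨e, he, rfl⟩
    exact hrD _ e.2
  · rintro _ ⟨e, he, rfl⟩
    exact hU.δ e he e0 he0
  · rintro _ ⟨e, he, rfl⟩ j hj y hy
    exact (hU.h e0 he0 e he j hj y hy).symm
  · rintro _ ⟨e, he, rfl⟩
    exact hU.T e he e0 he0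
  · rintro _ ⟨e, he, rfl⟩
    exact hU.Z e he e0 he0
  · rintro _ ⟨e, he, rfl⟩ _ ⟨e', he', rfl⟩ hne
    exact hU.D e he e' he' (fun h => hne (by rw [h]))
  · rintro _ ⟨e, he, rfl⟩ γ hγ j
    exact hU.Y e he e0 he0 γ hγ j

/-- there are no homogeneous sets of colour zero of full cardinality -/
theorem noLargeZero (hi : Function.Injective i) (hb : Monotone fun x => b (i x)) (hL : 𝔠 < #L)
    (hbL : ∀ ξ, #{x | b (i x) ≤ ξ} < #L) (p : Cond b) : p ∈ NoLargeZero (col b i) := by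
  intro H
  refine mem_fimp.2 fun q _ hq => ?_
  let sd : ∀ x : {x : Cond b // x ≤ q}, StepData i H x.1 := fun x =>
    Classical.choice (exists_step hL hbL H q hq x.1 x.2)
  let P : ℕ → {x : Cond b // x ≤ q} := fun n =>
    Nat.rec ⟨q, le_rfl⟩ (fun _ x => ⟨(sd x).s, (sd x).hsp.trans x.2⟩) n
  let d : ∀ n, StepData i H (P n).1 := fun n => sd (P n)
  have hP : ∀ n, (P (n + 1)).1 = (d n).s := fun n => rfl
  have hanti : Antitone fun n => (P n).1 := by
    refine antitone_nat_of_succ_le fun n => ?_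
    rw [hP]
    exact (d n).hsp
  have ha1 : ∀ n, (d n).a < (P (n + 1)).1.δ := fun n => (d n).has
  have ha2 : ∀ n, (P n).1.δ ≤ (d n).a := fun n => (d n).pa
  have hmono : StrictMono fun n => (d n).a :=
    strictMono_nat_of_lt_succ fun n => (ha1 n).trans_le (ha2 (n + 1))
  have henum : ∀ n, ∃ e : ℕ → Om, (d n).Z ⊆ range e := by
    intro n
    rcases (d n).Z.eq_empty_or_nonempty with h | h
    · exact ⟨fun _ => (d n).a, by rw [h]; exact empty_subset _⟩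
    · obtain ⟨e, he⟩ := (d n).hZc.exists_eq_range h
      exact ⟨e, he.le⟩
  choose e he using henum
  let t : Task := (fun n => (d n).a, e)
  obtain ⟨w0, hw0, ht0⟩ := exists_lb (fun n => (P n).1) hanti {t} (countable_singleton t)
    (by
      intro t' ht'
      rw [mem_singleton_iff.1 ht']
      exact hmono)
    (by
      intro t' ht' n
      rw [mem_singleton_iff.1 ht']
      exact ⟨n + 1, ha1 n⟩)
  have ht : t ∈ w0.T := ht0 rfl
  obtain ⟨j, hj, hblock⟩ := exists_block hL hbL H q hq w0 ((hw0 0).trans (P 0).2) w0.δ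
  obtain ⟨β, hβ, v, hv, hvH⟩ := exists_of_not_small hblock
  obtain ⟨w, hwv, hw⟩ := exists_height v j
  have hww0 : w ≤ w0 := hwv.trans hv
  obtain ⟨n, hn⟩ := le_sat hww0 hj hw ht
  -- choose `α`
  have hex : ∃ α ∈ (d n).E, i α ∉ w.D ∧ ∀ γ ∈ ((d n).r α).D, γ ∈ w.D → γ ∈ (d n).R := by
    by_contra hcon
    push Not at hcon
    apply (d n).hE
    have h1 : ∀ α ∈ (d n).E \ i ⁻¹' w.D, ∃ γ, γ ∈ ((d n).r α).D ∧ γ ∈ w.D ∧ γ ∉ (d n).R := by
      intro α hα
      obtain ⟨γ, h1, h2, h3⟩ := hcon α hα.1 hα.2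
      exact ⟨γ, h1, h2, h3⟩
    have : Nonempty K := ⟨i β⟩
    choose! g hg1 hg2 hg3 using h1
    have h2 : ((d n).E \ i ⁻¹' w.D).Countable := by
      refine MapsTo.countable_of_injOn (f := g) (t := w.D) (fun α hα => hg2 α hα) ?_ w.D_count
      intro α hα α' hα' h
      by_contra hne
      exact hg3 α hα ((d n).hD α hα.1 α' hα'.1 hne ⟨hg1 α hα, h ▸ hg1 α' hα'⟩)
    refine (h2.union (w.D_count.preimage hi)).mono fun α hα => ?_
    by_cases h : i α ∈ w.D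
    · exact Or.inr h
    · exact Or.inl ⟨hα, h⟩
  obtain ⟨α, hαE, hαw, hαD⟩ := hex
  have hqs : w ≤ (d n).s := by
    rw [← hP]
    exact hww0.trans (hw0 (n + 1))
  have hsj : (d n).s.δ ≤ j := by
    rw [← hP]
    exact (le_δ (hw0 (n + 1))).trans hj
  have hbα : b (i α) = (d n).a := (d n).hb α hαE
  obtain ⟨u, huw, hur, huY⟩ := exists_amalg hqs ((d n).hδ α hαE) ((d n).hh α hαE)
    ((d n).hT α hαE) (fun γ hγ hγw => ⟨(d n).hR (hαD γ hγ hγw),
      (d n).hY α hαE γ (hαD γ hγ hγw)⟩) (i α) ((d n).hα α hαE) hαw {j} (by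
      rintro _ rfl
      refine ⟨hsj, hw, fun y hy => ?_⟩
      have hy1 := ((d n).r α).Y_gt (i α) ((d n).hα α hαE) y hy
      have hy2 := ((d n).r α).Y_lt (i α) ((d n).hα α hαE) y hy
      rw [(d n).hδ α hαE, ← hP] at hy2
      rw [(d n).hZ α hαE] at hy
      obtain ⟨m, hm⟩ := he n hy
      rw [hbα] at hy1 ⊢
      rw [← hm] at hy1 hy2 ⊢
      exact hn m hy1 (hy2.trans_le (ha2 (n + 1)))) (by
      rw [hbα]
      exact (d n).has) subsingleton_singleton
  have hαu : i α ∈ u.D := le_D hur ((d n).hα α hαE)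
  have hju : j ∈ u.Y (i α) := huY rfl
  have hαβ : α < β := by
    by_contra hcon
    have h1 : b (i β) ≤ b (i α) := hb (not_lt.1 hcon)
    rw [hβ, hbα] at h1
    exact absurd ((d n).has.trans_le hsj) (not_lt.2 h1)
  refine ⟨u, (huw.trans hww0).trans ((hw0 0).trans (P 0).2), ?_⟩
  refine mem_fex_of_mem α (down_fex _) (mem_fex_of_mem β ?_ ?_)
  · exact down_fand (down_fground _) (down_fand (down_meets _) (down_fand (down_meets _)
      (down_meets _)))
  · refine ⟨hαβ, down_meets _ _ ((d n).hH α hαE) _ hur, down_meets _ _ hvH _ (huw.trans hwv),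
      meets_of_mem ⟨hαu, ?_⟩⟩
    rw [hβ]
    exact hju

end Pool.Agent.T2H97.EDM
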