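import Mathlib
import Pool.Agent.T2H97.EDM.Main

set_option autoImplicit false

/-!
# The division into blocks
-/

namespace Pool.Agent.T2H97.EDM

open Cardinal Set Pool.Agent.Helper669.KDelta Pool.Agent.Helper669.Forcing

theorem exists_blocks (κ : Cardinal.{0}) (hcof : κ.ord.cof = ℵ₁) :
    ∃ b : κ.ord.ToType → Om, Monotone b ∧ ∀ i, #{x | b x ≤ i} < #κ.ord.ToType := by
  have hcof' : Order.cof κ.ord.ToType = ℵ₁ := by rw [Ordinal.cof_toType, hcof]
  obtain ⟨S, hS, hSc⟩ := Order.exists_cof_eq (α := κ.ord.ToType)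
  rw [hcof', ← mk_Om] at hSc
  obtain ⟨e⟩ := Cardinal.eq.1 hSc
  have hex : ∀ x : κ.ord.ToType, ∃ i : Om, x ≤ (e.symm i).1 := by
    intro x
    obtain ⟨y, hy, hxy⟩ := hS x
    exact ⟨e ⟨y, hy⟩, by simpa using hxy⟩
  let b : κ.ord.ToType → Om := fun x => wellFounded_lt.min {i : Om | x ≤ (e.symm i).1} (hex x)
  have hb1 : ∀ x, x ≤ (e.symm (b x)).1 := fun x =>
    wellFounded_lt.min_mem {i : Om | x ≤ (e.symm i).1} (hex x)
  have hb2 : ∀ x i, x ≤ (e.symm i).1 → b x ≤ i := fun x i hi =>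
    not_lt.1 (wellFounded_lt.not_lt_min {i : Om | x ≤ (e.symm i).1} hi)
  refine ⟨b, fun x y hxy => hb2 x _ (hxy.trans (hb1 y)), fun i => ?_⟩
  have hbd : ∃ z : κ.ord.ToType, ∀ i' ≤ i, (e.symm i').1 < z := by
    by_contra hcon
    push Not at hcon
    have h1 : IsCofinal ((fun i' : Om => (e.symm i').1) '' Iic i) := fun z => by
      obtain ⟨i', hi', h⟩ := hcon z
      exact ⟨_, ⟨i', hi', rfl⟩, h⟩
    have h2 := Order.cof_le h1
    rw [hcof'] at h2
    have h3 : (Iic i).Countable := by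
      rw [← Iio_insert]
      exact (countable_Iio i).insert i
    have h4 : #((fun i' : Om => (e.symm i').1) '' Iic i) ≤ ℵ₀ :=
      mk_le_aleph0_iff.2 (h3.image _)
    exact absurd (h2.trans h4) (not_le.2 aleph0_lt_aleph_one)
  obtain ⟨z, hz⟩ := hbd
  have h1 : {x | b x ≤ i} ⊆ Iio z := fun x hx => (hb1 x).trans_lt (hz _ hx)
  rw [mk_ord_toType]
  refine (mk_le_mk_of_subset h1).trans_lt ?_
  simpa using mk_Iio_toType_ord_lt z

theorem exists_above {L : Type} {b : L → Om} (h : ∀ i, #{x | b x ≤ i} < #L) (i : Om) :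
    ∃ z, i < b z := by
  by_contra hcon
  push Not at hcon
  have h1 : {x | b x ≤ i} = Set.univ := eq_univ_of_forall hcon
  have h2 := h i
  rw [h1, mk_univ] at h2
  exact lt_irrefl _ h2

theorem exists_forcing (θ : Cardinal.{0}) :
    ∃ (P : Type) (_ : Preorder P), Nonempty P ∧ ∀ p : P,
      (∀ ν : Cardinal.{0}, (ν = ℵ₁ ∨ 2 ^ (ℵ₀ : Cardinal.{0}) < ν) → p ∈ StaysCardinal P ν) ∧
      ∀ κ ≤ θ, 2 ^ (ℵ₀ : Cardinal.{0}) < κ → κ.ord.cof = ℵ₁ →
        p ∈ UncountableCofinality P κ.ord.ToType ∧ p ∈ NotArrow P κ.ord.ToType := by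
  let I : Type := {s : Set θ.out // (#s).ord.cof = ℵ₁}
  choose b hb hbK using fun s : I => exists_blocks (#s.1) s.2
  let K : Type := Σ s : I, (#s.1).ord.ToType
  let B : K → Om := fun x => b x.1 x.2
  refine ⟨Cond B, inferInstance, inferInstance, fun p => ⟨?_, ?_⟩⟩
  · rintro ν (rfl | hν)
    · exact staysCardinal_aleph_one p
    · rw [two_power_aleph0] at hν
      exact staysCardinal_of_lt ν hν p
  · intro κ hκθ hκ hcof
    rw [two_power_aleph0] at hκ
    rw [← mk_out θ] at hκθ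
    obtain ⟨s, rfl⟩ := le_mk_iff_exists_set.1 hκθ
    let i : (#s).ord.ToType → K := fun x => ⟨⟨s, hcof⟩, x⟩
    have hi : Function.Injective i := fun x y h => by
      have := (Sigma.mk.inj_iff.1 h).2
      exact eq_of_heq this
    have hK : 𝔠 < #(#s).ord.ToType := by rwa [mk_ord_toType]
    have h1 : Monotone fun x => B (i x) := hb ⟨s, hcof⟩
    have h2 : ∀ ξ, #{x | B (i x) ≤ ξ} < #(#s).ord.ToType := hbK ⟨s, hcof⟩
    refine ⟨uncountableCofinality h1 (exists_above h2) p, ?_⟩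
    exact mem_fex_of_mem (col B i) (down_fand (down_fall fun _ => down_fimp _ _)
      (down_fall fun _ => down_fall fun _ => down_fnot _))
      ⟨noLargeZero hi h1 hK h2 p, noOmegaSuccOne p⟩

theorem cof_aleph_omega_one : (ℵ_ (Ordinal.omega 1) : Cardinal.{0}).ord.cof = ℵ₁ := by
  rw [ord_aleph, Ordinal.cof_omega]
  · exact cof_omega_one
  · exact Cardinal.isSuccLimit_omega 1

end Pool.Agent.T2H97.EDM
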